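import Pool.Agent.Helper91.IP.St.Stubs

/-!
# Project IP, piece F1: the high levels
-/

namespace Pool.Agent.Helper42.IP

open Finset Equiv Matrix
open Pool.Agent.Helper91.IP

variable {V : Type} [Fintype V] [DecidableEq V]

private theorem F1_nsq (f : Perm V → ℝ) : f ⬝ᵥ f = nsq f := by
  simp only [dotProduct, nsq, sq]

private theorem F1_En_nonneg {w : V → V → ℝ} (hw : ∀ x y, 0 ≤ w x y) (f : Perm V → ℝ) :
    0 ≤ En w f := by
  have h1 : 0 ≤ ∑ x, ∑ y, w x y * dif f x y :=
    sum_nonneg fun x _ => sum_nonneg fun y _ =>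
      mul_nonneg (hw x y) (sum_nonneg fun _ _ => sq_nonneg _)
  unfold En
  linarith

private theorem F1_Vl_mono {j k : ℕ} (h : j ≤ k) : Vl V j ≤ Vl V k := by
  unfold Vl
  refine iSup_le fun S => ?_
  exact le_iSup (fun S : {S : Finset V // S.card ≤ k} => Fs (S : Finset V)) ⟨S.1, S.2.trans h⟩

private theorem F1_dot {ι : Type} [Fintype ι] {P : Matrix ι ι ℝ} (hP : P.IsSymm) (u g : ι → ℝ) :
    u ⬝ᵥ (P *ᵥ g) = (P *ᵥ u) ⬝ᵥ g := by
  rw [dotProduct_mulVec, ← mulVec_transpose, hP.eq]

private theorem F1_ext {ι : Type} [Fintype ι] [DecidableEq ι] {M N : Matrix ι ι ℝ}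
    (h : ∀ u : ι → ℝ, M *ᵥ u = N *ᵥ u) : M = N := by
  ext i j
  have := congrFun (h (Pi.single j 1)) i
  simpa using this

/-- the trace of `K_T P` for a projection `P` is nonnegative -/
private theorem F1_trace_nonneg (w : V → V → ℝ) (T : ℝ) {P : Matrix (Perm V) (Perm V) ℝ}
    (hP : P.IsSymm) (hPP : P * P = P) : 0 ≤ trace (Kt w T * P) := by
  have h1 : Kt w T = Kt w (T / 2) * Kt w (T / 2) := by
    rw [← Kt_add]
    congr 1
    ring
  have h2 : trace (Kt w T * P) = trace ((Kt w (T / 2) * P)ᵀ * (Kt w (T / 2) * P)) := by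
    rw [transpose_mul, (Kt_isSymm w (T / 2)).eq, hP.eq, h1]
    generalize Kt w (T / 2) = K
    calc trace (K * K * P) = trace (K * K * P * P) := by rw [Matrix.mul_assoc (K * K), hPP]
      _ = trace (P * (K * K * P)) := Matrix.trace_mul_comm _ _
      _ = trace (P * K * (K * P)) := by simp only [Matrix.mul_assoc]
  rw [h2, Matrix.trace]
  refine sum_nonneg fun i _ => ?_
  rw [diag_apply, Matrix.mul_apply]
  exact sum_nonneg fun j _ => by rw [transpose_apply]; exact mul_self_nonneg _

/-- IP-F1 (uses D2, D3, E1, E3, E4): the high levels -/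
theorem trace_split {w : V → V → ℝ} {γ : ℝ} (h : Gap w γ) (hn : 2 ≤ Fintype.card V) (k : ℕ)
    (hk : k + 1 ≤ Fintype.card V) (c : ℝ)
    (hc : ∀ j : ℕ, 1 ≤ j → j ≤ k → ∀ f ∈ Vl V j, Orth f (Vl V (j - 1)) →
      c * j * nsq f ≤ En w f) {T t : ℝ} (hT : 0 ≤ T) (ht : 0 ≤ t) :
    trace (Kt w (T + t)) ≤ (1 + Fintype.card V * Real.exp (-(c * (T + t)))) ^ Fintype.card V +
      Real.exp (-(t * (γ * (k + 1) / (4 * Real.log (2 * Fintype.card V))))) * trace (Kt w T) := by
  classical
  -- the projections on the levels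
  choose P hPs hPP hPm hPf hPt hPc using fun j : ℕ => exists_proj (Vl V j)
  have hsA : (Am w)ᵀ = Am w := (Am_isSymm w).eq
  have hcomm : ∀ j, Am w * P j = P j * Am w := fun j =>
    hPc j (Am w) (fun u hu => Am_Vl w j hu) (fun u hu => by rw [hsA]; exact Am_Vl w j hu)
  have hji : ∀ i j, i ≤ j → P j * P i = P i := fun i j hij => F1_ext fun u => by
    rw [← mulVec_mulVec]
    exact hPf j _ (F1_Vl_mono hij (hPm i u))
  have hij : ∀ i j, i ≤ j → P i * P j = P i := fun i j hij => by
    have := congrArg transpose (hji i j hij)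
    rwa [transpose_mul, (hPs i).eq, (hPs j).eq] at this
  have hT' : 0 ≤ T + t := add_nonneg hT ht
  set T' := T + t with hT'def
  -- level zero
  have h0 : trace (Kt w T' * P 0) ≤ 1 := by
    have h1 := trace_exp_le (Am w) (P 0) (Am_isSymm w) (hPs 0) (hPP 0) (hcomm 0) 0
      (fun u _ => by rw [zero_mul, Am_quad]; exact F1_En_nonneg h.nonneg u) 0 hT'
    rw [zero_add, zero_smul, neg_zero, NormedSpace.exp_zero, Matrix.one_mul, mul_zero, neg_zero,
      Real.exp_zero, one_mul, hPt 0] at h1
    have h2 := finrank_Vl (V := V) 0 (Nat.zero_le _)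
    rw [Nat.choose_zero_right, pow_zero, mul_one] at h2
    have h3 : (Module.finrank ℝ (Vl V 0) : ℝ) ≤ 1 := by exact_mod_cast h2
    exact h1.trans h3
  -- the levels `1, …, k`
  have hlev : ∀ j, j < k → trace (Kt w T' * (P (j + 1) - P j)) ≤
      (Fintype.card V * Real.exp (-(c * T'))) ^ (j + 1) * ((Fintype.card V).choose (j + 1) : ℝ) := by
    intro j hj
    have hs : (P (j + 1) - P j).IsSymm := by
      unfold Matrix.IsSymm
      rw [transpose_sub, (hPs (j + 1)).eq, (hPs j).eq]
    have hpp : (P (j + 1) - P j) * (P (j + 1) - P j) = P (j + 1) - P j := by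
      rw [Matrix.sub_mul, Matrix.mul_sub, Matrix.mul_sub, hPP, hPP, hji j (j + 1) (Nat.le_succ j),
        hij j (j + 1) (Nat.le_succ j)]
      abel
    have hcm : Am w * (P (j + 1) - P j) = (P (j + 1) - P j) * Am w := by
      rw [Matrix.mul_sub, Matrix.sub_mul, hcomm, hcomm]
    have he : ∀ u : Perm V → ℝ, (P (j + 1) - P j) *ᵥ u = u →
        (c * ((j : ℝ) + 1)) * (u ⬝ᵥ u) ≤ u ⬝ᵥ (Am w *ᵥ u) := by
      intro u hu
      have hu1 : u ∈ Vl V (j + 1) := by
        rw [← hu, sub_mulVec]
        exact Submodule.sub_mem _ (hPm _ _) (F1_Vl_mono (Nat.le_succ j) (hPm _ _))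
      have hu2 : P j *ᵥ u = 0 := by
        rw [← hu, mulVec_mulVec, Matrix.mul_sub, hij j (j + 1) (Nat.le_succ j), hPP, sub_self,
          zero_mulVec]
      have hu3 : Orth u (Vl V (j + 1 - 1)) := by
        intro g hg
        rw [Nat.add_sub_cancel] at hg
        have e1 : ∑ s, u s * g s = u ⬝ᵥ (P j *ᵥ g) := by
          rw [hPf j g hg]
          rfl
        rw [e1, F1_dot (hPs j), hu2, zero_dotProduct]
      have := hc (j + 1) (Nat.le_add_left 1 j) hj u hu1 hu3
      rw [Am_quad, F1_nsq]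
      push_cast at this
      exact this
    have h1 := trace_exp_le (Am w) (P (j + 1) - P j) (Am_isSymm w) hs hpp hcm
      (c * ((j : ℝ) + 1)) he 0 hT'
    rw [zero_add, zero_smul, neg_zero, NormedSpace.exp_zero, Matrix.one_mul, trace_sub, hPt,
      hPt] at h1
    have h2 := finrank_Vl (V := V) (j + 1) (by omega)
    have h3 : (Module.finrank ℝ (Vl V (j + 1)) : ℝ) ≤
        ((Fintype.card V).choose (j + 1) : ℝ) * (Fintype.card V : ℝ) ^ (j + 1) := by
      exact_mod_cast h2
    have h4 : (0 : ℝ) ≤ (Module.finrank ℝ (Vl V j) : ℝ) := Nat.cast_nonneg _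
    have h5 : Real.exp (-(T' * (c * ((j : ℝ) + 1)))) = Real.exp (-(c * T')) ^ (j + 1) := by
      rw [← Real.exp_nat_mul]
      congr 1
      push_cast
      ring
    refine h1.trans ?_
    rw [h5]
    calc Real.exp (-(c * T')) ^ (j + 1) *
          ((Module.finrank ℝ (Vl V (j + 1)) : ℝ) - (Module.finrank ℝ (Vl V j) : ℝ))
        ≤ Real.exp (-(c * T')) ^ (j + 1) *
          (((Fintype.card V).choose (j + 1) : ℝ) * (Fintype.card V : ℝ) ^ (j + 1)) := by
          refine mul_le_mul_of_nonneg_left ?_ (pow_nonneg (Real.exp_pos _).le _)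
          linarith
      _ = (Fintype.card V * Real.exp (-(c * T'))) ^ (j + 1) *
          ((Fintype.card V).choose (j + 1) : ℝ) := by
          rw [mul_pow]
          ring
  -- the low part
  have hlow : trace (Kt w T' * P k) ≤
      (1 + Fintype.card V * Real.exp (-(c * T'))) ^ Fintype.card V := by
    have e1 : P k = P 0 + ∑ j ∈ range k, (P (j + 1) - P j) := by
      rw [sum_range_sub]
      abel
    have e2 : trace (Kt w T' * P k) =
        trace (Kt w T' * P 0) + ∑ j ∈ range k, trace (Kt w T' * (P (j + 1) - P j)) := by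
      conv_lhs => rw [e1]
      rw [Matrix.mul_add, trace_add, Matrix.mul_sum, trace_sum]
    set q : ℝ := Fintype.card V * Real.exp (-(c * T')) with hq
    have hq0 : 0 ≤ q := mul_nonneg (Nat.cast_nonneg _) (Real.exp_pos _).le
    have e3 : (1 + q) ^ Fintype.card V =
        ∑ m ∈ range (Fintype.card V + 1), q ^ m * ((Fintype.card V).choose m : ℝ) := by
      rw [add_comm, add_pow]
      exact sum_congr rfl fun m _ => by rw [one_pow, mul_one]
    rw [e2, e3]
    calc trace (Kt w T' * P 0) + ∑ j ∈ range k, trace (Kt w T' * (P (j + 1) - P j))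
        ≤ 1 + ∑ j ∈ range k, q ^ (j + 1) * ((Fintype.card V).choose (j + 1) : ℝ) := by
          refine add_le_add h0 (sum_le_sum fun j hj => ?_)
          exact hlev j (mem_range.1 hj)
      _ = ∑ m ∈ range (k + 1), q ^ m * ((Fintype.card V).choose m : ℝ) := by
          rw [sum_range_succ', pow_zero, Nat.choose_zero_right, Nat.cast_one, mul_one]
          ring
      _ ≤ ∑ m ∈ range (Fintype.card V + 1), q ^ m * ((Fintype.card V).choose m : ℝ) := by
          refine sum_le_sum_of_subset_of_nonneg (range_subset_range.2 (by omega))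
            fun m _ _ => mul_nonneg (pow_nonneg hq0 _) (Nat.cast_nonneg _)
  -- the high part
  have hhigh : trace (Kt w T' * (1 - P k)) ≤
      Real.exp (-(t * (γ * (k + 1) / (4 * Real.log (2 * Fintype.card V))))) * trace (Kt w T) := by
    have hs : (1 - P k).IsSymm := by
      unfold Matrix.IsSymm
      rw [transpose_sub, transpose_one, (hPs k).eq]
    have hpp : (1 - P k) * (1 - P k) = 1 - P k := by
      rw [Matrix.sub_mul, Matrix.mul_sub, Matrix.mul_sub, hPP, Matrix.one_mul, Matrix.one_mul,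
        Matrix.mul_one]
      abel
    have hcm : Am w * (1 - P k) = (1 - P k) * Am w := by
      rw [Matrix.mul_sub, Matrix.sub_mul, hcomm, Matrix.one_mul, Matrix.mul_one]
    have hlog : 0 < Real.log (2 * Fintype.card V) := by
      apply Real.log_pos
      have : (2 : ℝ) ≤ Fintype.card V := by exact_mod_cast hn
      linarith
    have he : ∀ u : Perm V → ℝ, (1 - P k) *ᵥ u = u →
        (γ * (k + 1) / (4 * Real.log (2 * Fintype.card V))) * (u ⬝ᵥ u) ≤ u ⬝ᵥ (Am w *ᵥ u) := by
      intro u hu
      have hu2 : P k *ᵥ u = 0 := by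
        rw [← hu, mulVec_mulVec, Matrix.mul_sub, hPP, Matrix.mul_one, sub_self, zero_mulVec]
      have hu3 : Orth u (Vl V (k + 1 - 1)) := by
        intro g hg
        rw [Nat.add_sub_cancel] at hg
        have e1 : ∑ s, u s * g s = u ⬝ᵥ (P k *ᵥ g) := by
          rw [hPf k g hg]
          rfl
        rw [e1, F1_dot (hPs k), hu2, zero_dotProduct]
      have a1 := complete_energy (k + 1) (Nat.le_add_left 1 k) hk u hu3
      have a2 := complete_compare h hn u
      rw [Am_quad, F1_nsq]
      have a3 : 0 ≤ γ / (2 * Real.log (2 * Fintype.card V)) :=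
        div_nonneg h.pos.le (by positivity)
      have a4 := mul_le_mul_of_nonneg_left a1 a3
      refine le_trans (le_of_eq ?_) (a4.trans a2)
      push_cast
      field_simp
      ring
    have h1 := trace_exp_le (Am w) (1 - P k) (Am_isSymm w) hs hpp hcm _ he T ht
    refine h1.trans (mul_le_mul_of_nonneg_left ?_ (Real.exp_pos _).le)
    have h2 := F1_trace_nonneg w T (hPs k) (hPP k)
    have h3 : trace (Kt w T * (1 - P k)) = trace (Kt w T) - trace (Kt w T * P k) := by
      rw [Matrix.mul_sub, Matrix.mul_one, trace_sub]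
    change trace (Kt w T * (1 - P k)) ≤ trace (Kt w T)
    rw [h3]
    linarith
  have hsum : trace (Kt w T') = trace (Kt w T' * P k) + trace (Kt w T' * (1 - P k)) := by
    rw [Matrix.mul_sub, Matrix.mul_one, trace_sub]
    ring
  rw [hsum]
  exact add_le_add hlow hhigh

end Pool.Agent.Helper42.IP
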